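import Pool.Agent.Helper70.OB.GoalsP

/-!
# OMG: the integrals of `s^(n-1) ω_j(s)` in general dimension
-/

open MeasureTheory Set Metric Filter
open scoped ENNReal Topology
open Pool.Agent.Helper70.MM
open Pool.Agent.Helper70.OB

namespace Pool.Agent.Helper26.OB

/-- Polynomial bound for the kernels. -/
lemma poly_bound (j : ℕ) : ∃ C : ℝ, 0 ≤ C ∧ ∀ s : ℝ, 0 < s →
    s ^ (2 * j + 1) * om (j + 1) s ≤ C * (1 + s) ^ (2 * j) * Real.exp (-s) := by
  have h : ∀ j : ℕ, (∃ C : ℝ, 0 ≤ C ∧ ∀ s : ℝ, 0 < s →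
      s ^ (2 * j + 1) * om j s ≤ C * (1 + s) ^ (2 * j + 2) * Real.exp (-s)) ∧
      ∃ C : ℝ, 0 ≤ C ∧ ∀ s : ℝ, 0 < s →
        s ^ (2 * j + 1) * om (j + 1) s ≤ C * (1 + s) ^ (2 * j) * Real.exp (-s) := by
    intro j
    induction j with
    | zero =>
      constructor
      · refine ⟨1, zero_le_one, fun s hs => ?_⟩
        rw [om_zero, one_mul]
        refine mul_le_mul_of_nonneg_right ?_ (Real.exp_pos _).le
        simp only [mul_zero, zero_add, pow_one]
        nlinarith
      · refine ⟨1, zero_le_one, fun s hs => ?_⟩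
        rw [om_one]
        have : s ≠ 0 := hs.ne'
        simp only [mul_zero, zero_add, pow_one, pow_zero, mul_one, one_mul]
        rw [mul_div_cancel₀ _ this]
    | succ j ih =>
      obtain ⟨⟨C1, hC1, h1⟩, ⟨C2, hC2, h2⟩⟩ := ih
      constructor
      · refine ⟨C2, hC2, fun s hs => ?_⟩
        have h3 := h2 s hs
        have e1 : s ^ (2 * (j + 1) + 1) * om (j + 1) s = s ^ 2 * (s ^ (2 * j + 1) * om (j + 1) s) := by
          ring
        rw [e1]
        have hs2 : s ^ 2 ≤ (1 + s) ^ 4 := by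
          have : s ^ 2 ≤ (1 + s) ^ 2 := by nlinarith
          have h5 : (1 : ℝ) ≤ (1 + s) ^ 2 := by nlinarith
          calc s ^ 2 ≤ (1 + s) ^ 2 := this
            _ = (1 + s) ^ 2 * 1 := by ring
            _ ≤ (1 + s) ^ 2 * (1 + s) ^ 2 := by
              exact mul_le_mul_of_nonneg_left h5 (by positivity)
            _ = (1 + s) ^ 4 := by ring
        calc s ^ 2 * (s ^ (2 * j + 1) * om (j + 1) s)
            ≤ s ^ 2 * (C2 * (1 + s) ^ (2 * j) * Real.exp (-s)) :=
              mul_le_mul_of_nonneg_left h3 (by positivity)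
          _ ≤ (1 + s) ^ 4 * (C2 * (1 + s) ^ (2 * j) * Real.exp (-s)) :=
              mul_le_mul_of_nonneg_right hs2 (by positivity)
          _ = C2 * (1 + s) ^ (2 * (j + 1) + 2) * Real.exp (-s) := by ring
      · refine ⟨C1 + (2 * j + 1) * C2, by positivity, fun s hs => ?_⟩
        have h3 := h2 s hs
        have h4 := h1 s hs
        have e1 : s ^ (2 * (j + 1) + 1) * om (j + 1 + 1) s =
            s ^ (2 * j + 1) * (s ^ 2 * om (j + 2) s) := by
          ring_nf
        rw [e1, om_rel j hs]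
        have h6 : (1 + s) ^ (2 * j) ≤ (1 + s) ^ (2 * (j + 1)) :=
          pow_le_pow_right₀ (by linarith) (by omega)
        have h7 : C2 * (1 + s) ^ (2 * j) * Real.exp (-s) ≤
            C2 * (1 + s) ^ (2 * (j + 1)) * Real.exp (-s) :=
          mul_le_mul_of_nonneg_right (mul_le_mul_of_nonneg_left h6 hC2) (Real.exp_pos _).le
        have h8 : (2 * (j : ℝ) + 1) * (s ^ (2 * j + 1) * om (j + 1) s) ≤
            (2 * (j : ℝ) + 1) * (C2 * (1 + s) ^ (2 * (j + 1)) * Real.exp (-s)) :=
          mul_le_mul_of_nonneg_left (h3.trans h7) (by positivity)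
        have e2 : s ^ (2 * j + 1) * (om j s + (2 * (j : ℝ) + 1) * om (j + 1) s) =
            s ^ (2 * j + 1) * om j s + (2 * (j : ℝ) + 1) * (s ^ (2 * j + 1) * om (j + 1) s) := by
          ring
        rw [e2]
        have e3 : (C1 + (2 * (j : ℝ) + 1) * C2) * (1 + s) ^ (2 * (j + 1)) * Real.exp (-s) =
            C1 * (1 + s) ^ (2 * j + 2) * Real.exp (-s) +
            (2 * (j : ℝ) + 1) * (C2 * (1 + s) ^ (2 * (j + 1)) * Real.exp (-s)) := by
          ring
        rw [e3]
        exact add_le_add h4 h8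
  exact (h j).2

lemma poly_exp (n : ℕ) {s : ℝ} (hs : 0 < s) :
    (1 + s) ^ n * Real.exp (-s) ≤ ((n.factorial : ℝ) * 2 ^ n * Real.exp 1) * Real.exp (-(1/2) * s) := by
  have h1 := Real.pow_div_factorial_le_exp ((1 + s) / 2) (by linarith) n
  have hf : (0 : ℝ) < n.factorial := by exact_mod_cast Nat.factorial_pos n
  rw [div_le_iff₀ hf, div_pow, div_le_iff₀ (by positivity)] at h1
  have h2 : Real.exp ((1 + s) / 2) ≤ Real.exp 1 * Real.exp (s / 2) := by
    rw [← Real.exp_add]
    exact Real.exp_le_exp.2 (by linarith)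
  have h3 : Real.exp (s / 2) * Real.exp (-s) = Real.exp (-(1/2) * s) := by
    rw [← Real.exp_add]
    congr 1
    ring
  calc (1 + s) ^ n * Real.exp (-s)
      ≤ (Real.exp ((1 + s) / 2) * n.factorial * 2 ^ n) * Real.exp (-s) :=
        mul_le_mul_of_nonneg_right h1 (Real.exp_pos _).le
    _ ≤ ((Real.exp 1 * Real.exp (s / 2)) * n.factorial * 2 ^ n) * Real.exp (-s) := by
        refine mul_le_mul_of_nonneg_right ?_ (Real.exp_pos _).le
        refine mul_le_mul_of_nonneg_right ?_ (by positivity)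
        exact mul_le_mul_of_nonneg_right h2 hf.le
    _ = ((n.factorial : ℝ) * 2 ^ n * Real.exp 1) * (Real.exp (s / 2) * Real.exp (-s)) := by ring
    _ = _ := by rw [h3]

lemma bnd (n j : ℕ) (hn : 1 ≤ n) (hj : 2 * j ≤ n) : ∃ C : ℝ, 0 ≤ C ∧ ∀ s : ℝ, 0 < s →
    s ^ (n - 1) * om j s ≤ C * Real.exp (-(1/2) * s) := by
  cases j with
  | zero =>
    refine ⟨(n.factorial : ℝ) * 2 ^ n * Real.exp 1, by positivity, fun s hs => ?_⟩
    rw [om_zero]
    refine le_trans ?_ (poly_exp n hs)
    refine mul_le_mul_of_nonneg_right ?_ (Real.exp_pos _).le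
    calc s ^ (n - 1) ≤ (1 + s) ^ (n - 1) := pow_le_pow_left₀ hs.le (by linarith) _
      _ ≤ (1 + s) ^ n := pow_le_pow_right₀ (by linarith) (by omega)
  | succ i =>
    obtain ⟨C, hC, h⟩ := poly_bound i
    refine ⟨C * ((n.factorial : ℝ) * 2 ^ n * Real.exp 1), by positivity, fun s hs => ?_⟩
    have e1 : s ^ (n - 1) = s ^ (n - 2 - 2 * i) * s ^ (2 * i + 1) := by
      rw [← pow_add]
      congr 1
      omega
    rw [e1, mul_assoc]
    calc s ^ (n - 2 - 2 * i) * (s ^ (2 * i + 1) * om (i + 1) s)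
        ≤ s ^ (n - 2 - 2 * i) * (C * (1 + s) ^ (2 * i) * Real.exp (-s)) :=
          mul_le_mul_of_nonneg_left (h s hs) (by positivity)
      _ ≤ (1 + s) ^ (n - 2 * i) * (C * (1 + s) ^ (2 * i) * Real.exp (-s)) := by
          refine mul_le_mul_of_nonneg_right ?_ (by positivity)
          calc s ^ (n - 2 - 2 * i) ≤ (1 + s) ^ (n - 2 - 2 * i) :=
                pow_le_pow_left₀ hs.le (by linarith) _
            _ ≤ (1 + s) ^ (n - 2 * i) := pow_le_pow_right₀ (by linarith) (by omega)
      _ = C * (((1 + s) ^ (n - 2 * i) * (1 + s) ^ (2 * i)) * Real.exp (-s)) := by ring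
      _ = C * ((1 + s) ^ n * Real.exp (-s)) := by
          rw [← pow_add]
          congr 4
          omega
      _ ≤ C * (((n.factorial : ℝ) * 2 ^ n * Real.exp 1) * Real.exp (-(1/2) * s)) :=
          mul_le_mul_of_nonneg_left (poly_exp n hs) hC
      _ = _ := by ring

lemma intg (n j : ℕ) (hn : 1 ≤ n) (hj : 2 * j ≤ n) :
    IntegrableOn (fun s : ℝ => s ^ (n - 1) * om j s) (Ioi 0) := by
  obtain ⟨C, hC, h⟩ := bnd n j hn hj
  have h1 : IntegrableOn (fun s : ℝ => C * Real.exp (-(1/2) * s)) (Ioi 0) :=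
    (exp_neg_integrableOn_Ioi 0 (by norm_num : (0 : ℝ) < 1/2)).const_mul C
  refine Integrable.mono' h1 ?_ ?_
  · exact ((measurable_id.pow_const (n - 1)).mul (om_measurable j)).aestronglyMeasurable
  · rw [ae_restrict_iff' measurableSet_Ioi]
    refine ae_of_all _ fun s hs => ?_
    have hs' : 0 < s := hs
    rw [Real.norm_eq_abs, abs_of_nonneg (mul_nonneg (by positivity) (om_pos j hs').le)]
    exact h s hs'

theorem omg : OMG := by
  intro n j hn hj
  refine ⟨intg n j hn hj, fun hj2 => ?_⟩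
  have i0 := intg n j hn hj
  have i1 := intg n (j + 1) hn hj2
  obtain ⟨C, hC, hb⟩ := bnd n (j + 1) hn hj2
  set F : ℝ → ℝ := fun s => s ^ n * om (j + 1) s with hF
  have hF0 : F 0 = 0 := by
    simp only [hF]
    rw [zero_pow (by omega), zero_mul]
  have hFb : ∀ s : ℝ, 0 < s → F s ≤ s * (C * Real.exp (-(1/2) * s)) := by
    intro s hs
    have e1 : F s = s * (s ^ (n - 1) * om (j + 1) s) := by
      simp only [hF]
      obtain ⟨m, rfl⟩ : ∃ m, n = m + 1 := ⟨n - 1, by omega⟩
      simp only [Nat.add_sub_cancel]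
      ring
    rw [e1]
    exact mul_le_mul_of_nonneg_left (hb s hs) hs.le
  have hFpos : ∀ s : ℝ, 0 < s → 0 ≤ F s := fun s hs =>
    mul_nonneg (by positivity) (om_pos (j + 1) hs).le
  have hcont : ContinuousWithinAt F (Ici 0) 0 := by
    rw [ContinuousWithinAt, hF0]
    have hz : Tendsto (fun s : ℝ => s * C) (𝓝[Ici 0] 0) (𝓝 0) := by
      have : Tendsto (fun s : ℝ => s * C) (𝓝 0) (𝓝 (0 * C)) :=
        (continuous_id.mul continuous_const).tendsto 0
      rw [zero_mul] at this
      exact this.mono_left nhdsWithin_le_nhds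
    refine tendsto_of_tendsto_of_tendsto_of_le_of_le' tendsto_const_nhds hz ?_ ?_
    · filter_upwards [self_mem_nhdsWithin] with s hs
      rcases eq_or_lt_of_le (show (0 : ℝ) ≤ s from hs) with h | h
      · rw [← h, hF0]
      · exact hFpos s h
    · filter_upwards [self_mem_nhdsWithin] with s hs
      rcases eq_or_lt_of_le (show (0 : ℝ) ≤ s from hs) with h | h
      · rw [← h, hF0, zero_mul]
      · refine (hFb s h).trans (mul_le_mul_of_nonneg_left ?_ h.le)
        have : Real.exp (-(1/2) * s) ≤ 1 := Real.exp_le_one_iff.2 (by linarith)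
        calc C * Real.exp (-(1/2) * s) ≤ C * 1 := mul_le_mul_of_nonneg_left this hC
          _ = C := mul_one C
  have hinf : Tendsto F atTop (𝓝 0) := by
    have hz : Tendsto (fun s : ℝ => C * (s ^ 1 * Real.exp (-(1/2) * s))) atTop (𝓝 (C * 0)) := by
      refine Tendsto.const_mul C ?_
      have h1 := Real.tendsto_pow_mul_exp_neg_atTop_nhds_zero 1
      have h2 : Tendsto (fun s : ℝ => (1/2 : ℝ) * s) atTop atTop :=
        Tendsto.const_mul_atTop (by norm_num) tendsto_id
      have h3 := (h1.comp h2).const_mul 2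
      rw [mul_zero] at h3
      refine h3.congr fun s => ?_
      simp only [Function.comp, pow_one]
      have : -(1/2 * s) = -(1/2) * s := by ring
      rw [this]
      ring
    rw [mul_zero] at hz
    refine tendsto_of_tendsto_of_tendsto_of_le_of_le' tendsto_const_nhds hz ?_ ?_
    · filter_upwards [eventually_gt_atTop 0] with s hs
      exact hFpos s hs
    · filter_upwards [eventually_gt_atTop 0] with s hs
      refine (hFb s hs).trans (le_of_eq ?_)
      ring
  have hder : ∀ s ∈ Ioi (0 : ℝ), HasDerivAt F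
      (((n : ℝ) - 1 - 2 * j) * (s ^ (n - 1) * om (j + 1) s) - s ^ (n - 1) * om j s) s := by
    intro s hs
    have hs' : 0 < s := hs
    have h1 := (hasDerivAt_pow n s).mul (om_hasDerivAt (j + 1) hs')
    refine h1.congr_deriv ?_
    have h2 := om_rel j hs'
    have e1 : s ^ n * (-(s * om (j + 1 + 1) s)) = -(s ^ (n - 1) * (s ^ 2 * om (j + 2) s)) := by
      obtain ⟨m, rfl⟩ : ∃ m, n = m + 1 := ⟨n - 1, by omega⟩
      simp only [Nat.add_sub_cancel]
      ring_nf
    rw [e1, h2]
    ring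
  have hint : IntegrableOn (fun s : ℝ => ((n : ℝ) - 1 - 2 * j) * (s ^ (n - 1) * om (j + 1) s) -
      s ^ (n - 1) * om j s) (Ioi 0) := (i1.const_mul _).sub i0
  have hmain := integral_Ioi_of_hasDerivAt_of_tendsto hcont hder hint hinf
  rw [hF0, sub_zero, integral_sub (i1.const_mul _) i0, integral_const_mul] at hmain
  have : AA n j = ((n : ℝ) - 1 - 2 * j) * AA n (j + 1) := by
    unfold AA
    linarith
  exact this

end Pool.Agent.Helper26.OB
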